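import Pool.Agent.H574R3.CS.Stmts

set_option autoImplicit false

namespace Pool.Agent.H164R3.CS.L

open Polynomial Pool.Agent.H574R3.CS

section
variable {K : Type} [Field K]

/-- quadratic form -/
noncomputable def Qf (n : NF K) {A : Type} [CommRing A] [Algebra K A] (p r : A) : A :=
  algebraMap K A n.q1 * p ^ 2 + algebraMap K A n.q2 * (p * r) + algebraMap K A n.q3 * r ^ 2

/-- cubic form -/
noncomputable def Cf (n : NF K) {A : Type} [CommRing A] [Algebra K A] (p r : A) : A :=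
  algebraMap K A n.a * p ^ 3 + algebraMap K A n.b * (p ^ 2 * r) +
    algebraMap K A n.c * (p * r ^ 2) + algebraMap K A n.d * r ^ 3

lemma map_Qf (n : NF K) {A B : Type} [CommRing A] [Algebra K A] [CommRing B] [Algebra K B]
    (φ : A →ₐ[K] B) (p r : A) : φ (Qf n p r) = Qf n (φ p) (φ r) := by
  simp [Qf]

lemma map_Cf (n : NF K) {A B : Type} [CommRing A] [Algebra K A] [CommRing B] [Algebra K B]
    (φ : A →ₐ[K] B) (p r : A) : φ (Cf n p r) = Cf n (φ p) (φ r) := by
  simp [Cf]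

lemma curve_of (a : Ten K) (n : NF K) (hn : IsNF a n) (p r : K[X]) (θ : AlgebraicClosure K)
    (hQ : Qf n (aeval θ p) (aeval θ r) = 0) (hc : Cf n (aeval θ p) (aeval θ r) ≠ 0)
    (hne : Qf n p r ≠ 0) (hpr : p ≠ 0 ∨ r ≠ 0) : Curve a e3 := by
  refine ⟨![Qf n p r * p, Qf n p r * r, 0, -Cf n p r], ?_, ⟨θ, -Cf n (aeval θ p) (aeval θ r),
    neg_ne_zero.mpr hc, ?_⟩, ?_⟩
  · rw [hn.1]
    simp only [NF.F, Matrix.cons_val_zero, Matrix.cons_val_one, Matrix.cons_val, Qf, Cf]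
    ring
  · intro i
    fin_cases i
    · simp [e3, map_Qf, hQ]
    · simp [e3, map_Qf, hQ]
    · simp [e3]
    · simp [e3, map_Cf]
  · rcases hpr with h | h
    · exact ⟨3, 0, by simpa [e3] using ⟨hne, h⟩⟩
    · exact ⟨3, 1, by simpa [e3] using ⟨hne, h⟩⟩

lemma line_of (a : Ten K) (n : NF K) (hn : IsNF a n) (x y : K) (hxy : ¬ (x = 0 ∧ y = 0))
    (hQ : n.q1 * x ^ 2 + n.q2 * (x * y) + n.q3 * y ^ 2 = 0)
    (hc : n.a * x ^ 3 + n.b * (x ^ 2 * y) + n.c * (x * y ^ 2) + n.d * y ^ 3 = 0) :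
    Curve a e3 := by
  refine ⟨![C x * X, C y * X, 0, 1], ?_, ⟨0, 1, one_ne_zero, ?_⟩, ?_⟩
  · rw [hn.1]
    have h1 : C (n.q1 * x ^ 2 + n.q2 * (x * y) + n.q3 * y ^ 2) = 0 := by rw [hQ, map_zero]
    have h2 : C (n.a * x ^ 3 + n.b * (x ^ 2 * y) + n.c * (x * y ^ 2) + n.d * y ^ 3) = 0 := by
      rw [hc, map_zero]
    simp only [NF.F, Matrix.cons_val_zero, Matrix.cons_val_one, Matrix.cons_val,
      Polynomial.algebraMap_eq]
    simp only [map_add, map_mul, map_pow] at h1 h2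
    linear_combination X ^ 2 * h1 + X ^ 3 * h2
  · intro i
    fin_cases i <;> simp [e3]
  · rw [not_and_or] at hxy
    rcases hxy with h | h
    · exact ⟨3, 0, by simpa [e3] using h⟩
    · exact ⟨3, 1, by simpa [e3] using h⟩

lemma map_root {L : Type} [Field L] [Algebra K L] (n : NF K) (x y : K)
    (hQ : n.q1 * x ^ 2 + n.q2 * (x * y) + n.q3 * y ^ 2 = 0) :
    Qf n (algebraMap K L x) (algebraMap K L y) = 0 := by
  have := congrArg (algebraMap K L) hQ
  rw [map_zero] at this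
  rw [← this]
  simp [Qf]

lemma map_nonroot {L : Type} [Field L] [Algebra K L] (n : NF K) (x y : K)
    (hc : ¬ (n.a * x ^ 3 + n.b * (x ^ 2 * y) + n.c * (x * y ^ 2) + n.d * y ^ 3 = 0)) :
    Cf n (algebraMap K L x) (algebraMap K L y) ≠ 0 := by
  intro h
  apply hc
  apply (algebraMap K L).injective
  rw [map_zero, ← h]
  simp [Cf]

lemma quad_zero {u v w : K} (h : C u * X ^ 2 + C v * X + C w = (0 : K[X])) :
    u = 0 ∧ v = 0 ∧ w = 0 := by
  have c0 := congrArg (fun f => coeff f 0) h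
  have c1 := congrArg (fun f => coeff f 1) h
  have c2 := congrArg (fun f => coeff f 2) h
  refine ⟨?_, ?_, ?_⟩
  · simpa [coeff_X, coeff_C] using c2
  · simpa [coeff_X, coeff_C] using c1
  · simpa [coeff_X, coeff_C] using c0

lemma Qf_poly0 (n : NF K) (y : K) (hy : y ≠ 0) (h : Qf n (X : K[X]) (C y) = 0) :
    n.q1 = 0 ∧ n.q2 = 0 ∧ n.q3 = 0 := by
  have e : Qf n (X : K[X]) (C y) = C n.q1 * X ^ 2 + C (n.q2 * y) * X + C (n.q3 * y ^ 2) := by
    simp only [Qf, Polynomial.algebraMap_eq, map_mul, map_pow]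
    ring
  rw [e] at h
  obtain ⟨h1, h2, h3⟩ := quad_zero h
  exact ⟨h1, by simpa [hy] using h2, by simpa [hy] using h3⟩

lemma Qf_poly1 (n : NF K) (x y : K) (hx : x ≠ 0)
    (hQ : n.q1 * x ^ 2 + n.q2 * (x * y) + n.q3 * y ^ 2 = 0)
    (h : Qf n (C x : K[X]) (C y + X) = 0) :
    n.q1 = 0 ∧ n.q2 = 0 ∧ n.q3 = 0 := by
  have e : Qf n (C x : K[X]) (C y + X) = C n.q3 * X ^ 2 +
      C (n.q2 * x + 2 * n.q3 * y) * X +
      C (n.q1 * x ^ 2 + n.q2 * (x * y) + n.q3 * y ^ 2) := by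
    simp only [Qf, Polynomial.algebraMap_eq, map_mul, map_pow, map_add, map_ofNat]
    ring
  rw [e] at h
  obtain ⟨hq3, c1', -⟩ := quad_zero h
  rw [hq3] at c1' hQ
  have hq2 : n.q2 = 0 := by
    have : n.q2 * x = 0 := by linear_combination c1'
    simpa [hx] using this
  rw [hq2] at hQ
  have hq1 : n.q1 = 0 := by
    have : n.q1 * x ^ 2 = 0 := by linear_combination hQ
    simpa [hx] using this
  exact ⟨hq1, hq2, hq3⟩

lemma exists_theta {L : Type} [Field L] [IsAlgClosed L] [Algebra K L] (n : NF K)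
    (hq3 : n.q3 ≠ 0) : ∃ θ : L, Qf n (1 : L) θ = 0 := by
  have hdeg : (C (algebraMap K L n.q3) * X ^ 2 +
      C (algebraMap K L n.q2) * X + C (algebraMap K L n.q1)).degree ≠ 0 := by
    rw [Polynomial.degree_quadratic (by simpa using hq3)]
    norm_num
  obtain ⟨θ, hθ⟩ := IsAlgClosed.exists_root _ hdeg
  refine ⟨θ, ?_⟩
  rw [IsRoot] at hθ
  simp only [eval_add, eval_mul, eval_C, eval_pow, eval_X] at hθ
  rw [Qf, ← hθ]
  ring

lemma divides {L : Type} [Field L] [Algebra K L] (n : NF K)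
    (hAn : ∀ x y : K, n.q1 * x ^ 2 + n.q2 * (x * y) + n.q3 * y ^ 2 = 0 → x = 0 ∧ y = 0)
    (hq3 : n.q3 ≠ 0) (θ : L) (hθ : Qf n (1 : L) θ = 0) (hc : Cf n (1 : L) θ = 0) :
    ∃ p0 p1 : K, n.a = n.q1 * p0 ∧ n.b = n.q2 * p0 + n.q1 * p1 ∧
      n.c = n.q3 * p0 + n.q2 * p1 ∧ n.d = n.q3 * p1 := by
  have e1 : ∃ p1 : K, n.d = n.q3 * p1 := ⟨n.d / n.q3, by field_simp⟩
  obtain ⟨p1, hp1⟩ := e1
  have e0 : ∃ p0 : K, n.c = n.q3 * p0 + n.q2 * p1 := ⟨(n.c - n.q2 * p1) / n.q3, by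
    field_simp
    ring⟩
  obtain ⟨p0, hp0⟩ := e0
  have hrem : algebraMap K L (n.a - n.q1 * p0) +
      algebraMap K L (n.b - n.q2 * p0 - n.q1 * p1) * θ = 0 := by
    rw [Cf, hp1, hp0] at hc
    rw [Qf] at hθ
    simp only [map_sub, map_add, map_mul] at hc hθ ⊢
    linear_combination hc - (algebraMap K L p0 + algebraMap K L p1 * θ) * hθ
  have hr1 : n.b - n.q2 * p0 - n.q1 * p1 = 0 := by
    by_contra hr1
    set r1 := n.b - n.q2 * p0 - n.q1 * p1 with hr1def
    set r0 := n.a - n.q1 * p0 with hr0def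
    have hQ : n.q1 * r1 ^ 2 + n.q2 * (r1 * (-r0)) + n.q3 * (-r0) ^ 2 = 0 := by
      apply (algebraMap K L).injective
      rw [Qf] at hθ
      simp only [map_add, map_mul, map_pow, map_neg, map_zero]
      have h0 : - algebraMap K L r0 = algebraMap K L r1 * θ := by linear_combination -hrem
      rw [h0]
      linear_combination (algebraMap K L r1) ^ 2 * hθ
    exact hr1 (hAn _ _ hQ).1
  have hr0 : n.a - n.q1 * p0 = 0 := by
    rw [hr1, map_zero, zero_mul, add_zero] at hrem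
    exact (map_eq_zero (algebraMap K L)).mp hrem
  exact ⟨p0, p1, by linear_combination hr0, by linear_combination hr1, hp0, hp1⟩

end

theorem taskL : TaskL := by
  intro K _ a n hn
  by_cases h1 : ∃ x y : K, ¬ (x = 0 ∧ y = 0) ∧ n.q1 * x ^ 2 + n.q2 * (x * y) + n.q3 * y ^ 2 = 0
  · obtain ⟨x, y, hxy, hQ⟩ := h1
    by_cases hc : n.a * x ^ 3 + n.b * (x ^ 2 * y) + n.c * (x * y ^ 2) + n.d * y ^ 3 = 0
    · exact Or.inl (line_of a n hn x y hxy hQ hc)
    by_cases hq : n.q1 = 0 ∧ n.q2 = 0 ∧ n.q3 = 0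
    · by_cases hA : n.Aniso
      · exact Or.inr (Or.inl ⟨hq, hA⟩)
      · unfold NF.Aniso at hA
        push Not at hA
        obtain ⟨x', y', h0, h2⟩ := hA
        refine Or.inl (line_of a n hn x' y' (by tauto) ?_ h0)
        rw [hq.1, hq.2.1, hq.2.2]
        ring
    · left
      have hc' := map_nonroot (L := AlgebraicClosure K) n x y hc
      have hQ' := map_root (L := AlgebraicClosure K) n x y hQ
      by_cases hx : x = 0
      · have hy : y ≠ 0 := fun h => hxy ⟨hx, h⟩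
        subst hx
        rw [map_zero] at hc' hQ'
        refine curve_of a n hn X (C y) 0 ?_ ?_ ?_ (Or.inl X_ne_zero)
        · rw [aeval_X, aeval_C]
          exact hQ'
        · rw [aeval_X, aeval_C]
          exact hc'
        · intro h
          exact hq (Qf_poly0 n y hy h)
      · refine curve_of a n hn (C x) (C y + X) 0 ?_ ?_ ?_ (Or.inl (by simpa using hx))
        · rw [map_add, aeval_X, aeval_C, aeval_C, add_zero]
          exact hQ'
        · rw [map_add, aeval_X, aeval_C, aeval_C, add_zero]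
          exact hc'
        · intro h
          exact hq (Qf_poly1 n x y hx hQ h)
  · have hAn : ∀ x y : K, n.q1 * x ^ 2 + n.q2 * (x * y) + n.q3 * y ^ 2 = 0 → x = 0 ∧ y = 0 := by
      intro x y h
      by_contra hne
      exact h1 ⟨x, y, hne, h⟩
    have hq3 : n.q3 ≠ 0 := by
      intro h
      have := hAn 0 1 (by rw [h]; ring)
      exact one_ne_zero this.2
    have hq1 : n.q1 ≠ 0 := by
      intro h
      have := hAn 1 0 (by rw [h]; ring)
      exact one_ne_zero this.1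
    obtain ⟨θ, hθ⟩ := exists_theta (L := AlgebraicClosure K) n hq3
    by_cases hc : Cf n (1 : AlgebraicClosure K) θ = 0
    · exact Or.inr (Or.inr ⟨hAn, divides n hAn hq3 θ hθ hc⟩)
    · left
      refine curve_of a n hn 1 X θ ?_ ?_ ?_ (Or.inl one_ne_zero)
      · rw [map_one, aeval_X]
        exact hθ
      · rw [map_one, aeval_X]
        exact hc
      intro h
      have e : Qf n (1 : K[X]) X = C n.q3 * X ^ 2 + C n.q2 * X + C n.q1 := by
        simp only [Qf, Polynomial.algebraMap_eq]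
        ring
      rw [e] at h
      exact hq1 (quad_zero h).2.2

end Pool.Agent.H164R3.CS.L
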